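import Pool.Agent.H14.NF.Base
import Pool.Agent.H29.T1.S8
import Mathlib.AlgebraicGeometry.EllipticCurve.Affine.Point

/-!
# NF: finiteness of the group of points: statements
-/

set_option autoImplicit false

namespace Pool.NF

open Polynomial Pool.T1

/-- NDBL: points of a cubic curve over a number field all of which are doubles: there are only finitely
many.  (Northcott and `h (2 Q) ≥ 4 h (Q) - C` for the height of the first coordinate.) -/
def NDBLStmt : Prop :=
  ∀ (K : Type) [Field K] [NumberField K] (a b c : K),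
    (X ^ 3 + C a * X ^ 2 + C b * X + C c : K[X]).Separable →
    (∀ x y : K, y ^ 2 = x ^ 3 + a * x ^ 2 + b * x + c →
      ∃ x' y' : K, y' ^ 2 = x' ^ 3 + a * x' ^ 2 + b * x' + c ∧
        4 * y' ^ 2 * x = x' ^ 4 - 2 * b * x' ^ 2 - 8 * c * x' + b ^ 2 - 4 * a * c) →
    {p : K × K | p.2 ^ 2 = p.1 ^ 3 + a * p.1 ^ 2 + b * p.1 + c}.Finite

/-- FINN: if the 2-Selmer group is trivial there are only finitely many points.  (DIVK and NDBL.) -/
def FINNStmt : Prop :=
  ∀ (K : Type) [Field K] [NumberField K] (a b c : K),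
    Irreducible (X ^ 3 + C a * X ^ 2 + C b * X + C c : K[X]) →
    SelK (X ^ 3 + C a * X ^ 2 + C b * X + C c : K[X]) →
    {p : K × K | p.2 ^ 2 = p.1 ^ 3 + a * p.1 ^ 2 + b * p.1 + c}.Finite

end Pool.NF
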