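import Pool.Agent.H8.NF.NDBL
import Pool.Agent.H36.T1.DIVK

/-!
# NF, module FINN: a trivial 2-Selmer group leaves only finitely many points
-/

set_option autoImplicit false

namespace Pool.NF

open Polynomial Pool.T1

/-- FINN from DIVK and NDBL. -/
theorem finn_of (hdiv : DIVKStmt) (hnd : NDBLStmt) : FINNStmt := by
  intro K _ _ a b c hirr hsel
  exact hnd K a b c hirr.separable fun x y hxy => hdiv K two_ne_zero a b c hirr hsel x y hxy

/-- FINN. -/
theorem finn : FINNStmt := finn_of Pool.T1.divk ndbl

end Pool.NF
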