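import Pool.Agent.H8.NF.F
import Mathlib.NumberTheory.Height.EllipticCurve
import Mathlib.NumberTheory.Height.NumberField
import Mathlib.NumberTheory.Height.Northcott
import Mathlib.Algebra.CubicDiscriminant

/-!
# NF: NDBL: points all of which are doubles
-/

set_option autoImplicit false

namespace Pool.NF.NDBL8

open Polynomial Height

section Disc

variable {K : Type} [Field K]

/-- The curve. -/
def crv (a b c : K) : WeierstrassCurve K := ⟨0, a, 0, b, c⟩

lemma disc_ne (a b c : K) (hs : (X ^ 3 + C a * X ^ 2 + C b * X + C c : K[X]).Separable) :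
    (⟨1, a, b, c⟩ : Cubic K).discr ≠ 0 := by
  set P : Cubic K := ⟨1, a, b, c⟩ with hP
  have e : P.toPoly = X ^ 3 + C a * X ^ 2 + C b * X + C c := by
    simp [Cubic.toPoly, hP]
  have ha : P.a ≠ 0 := by simp [hP]
  set φ := algebraMap K (AlgebraicClosure K)
  have hsp : (P.toPoly.map φ).Splits := IsAlgClosed.splits _
  rw [Cubic.discr_ne_zero_iff_roots_nodup ha hsp, Cubic.map_roots, e]
  exact Polynomial.nodup_roots hs.map

lemma ell (h2 : (2 : K) ≠ 0) (a b c : K)
    (hs : (X ^ 3 + C a * X ^ 2 + C b * X + C c : K[X]).Separable) : (crv a b c).IsElliptic := by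
  refine ⟨?_⟩
  have h : (crv a b c).Δ = 2 ^ 4 * (⟨1, a, b, c⟩ : Cubic K).discr := by
    simp only [crv, WeierstrassCurve.Δ, WeierstrassCurve.b₂, WeierstrassCurve.b₄,
      WeierstrassCurve.b₆, WeierstrassCurve.b₈, Cubic.discr]
    ring
  rw [h]
  exact (mul_ne_zero (pow_ne_zero _ h2) (disc_ne a b c hs)).isUnit

end Disc

section Ht

variable {K : Type} [Field K] [NumberField K]

lemma height_double (a b c : K)
    (hs : (X ^ 3 + C a * X ^ 2 + C b * X + C c : K[X]).Separable) :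
    ∃ M : ℝ, 0 ≤ M ∧ ∀ x' y' x : K, y' ^ 2 = x' ^ 3 + a * x' ^ 2 + b * x' + c →
      4 * y' ^ 2 * x = x' ^ 4 - 2 * b * x' ^ 2 - 8 * c * x' + b ^ 2 - 4 * a * c →
      (4 * y' ^ 2 : K) ≠ 0 ∧ 4 * logHeight₁ x' ≤ logHeight₁ x + M := by
  have := ell two_ne_zero a b c hs
  obtain ⟨C₁, h₁⟩ := WeierstrassCurve.abs_logHeight_addSubMap_sub_two_mul_logHeight_le (crv a b c)
  obtain ⟨C₂, h₂⟩ := logHeight_sym2_ge K
  obtain ⟨C₃, h₃⟩ := logHeight_sym2_le K
  refine ⟨|C₁| + 2 * |C₂| + |C₃| + |logHeight ![(1 : K), 0]|, by positivity, ?_⟩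
  intro x' y' x hy hx
  have k₂ := h₂ (a := x') (b := 1) (c := x') (d := 1) (by simp) (by simp)
  have k₁ := h₁ ![x' * x', x' * 1 + 1 * x', 1 * 1]
  have e0 : (fun i => ((crv a b c).addSubMap i).eval ![x' * x', x' * 1 + 1 * x', 1 * 1]) =
      ![4 * y' ^ 2 * x, 4 * y' ^ 2, 0] := by
    funext i
    fin_cases i
    · simp [WeierstrassCurve.addSubMap, crv, WeierstrassCurve.b₂, WeierstrassCurve.b₄,
        WeierstrassCurve.b₆, WeierstrassCurve.b₈]
      rw [hx]
      ring
    · simp [WeierstrassCurve.addSubMap, crv, WeierstrassCurve.b₂, WeierstrassCurve.b₄,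
        WeierstrassCurve.b₆, WeierstrassCurve.b₈]
      rw [hy]
      ring
    · simp [WeierstrassCurve.addSubMap]
      ring
  have hne : (fun i => ((crv a b c).addSubMap i).eval ![x' * x', x' * 1 + 1 * x', 1 * 1]) ≠ 0 :=
    WeierstrassCurve.addSubMap_ne_zero _ (by
      intro h
      have := congrFun h 2
      simp at this)
  rw [e0] at k₁ hne
  have hD : (4 * y' ^ 2 : K) ≠ 0 := by
    intro h
    apply hne
    rw [h]
    funext i
    fin_cases i <;> simp
  have e1 : (![4 * y' ^ 2 * x, 4 * y' ^ 2, 0] : Fin 3 → K) = (4 * y' ^ 2 : K) • ![x, 1, 0] := by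
    funext i
    fin_cases i <;> simp
  rw [e1, logHeight_smul_eq_logHeight _ hD] at k₁
  have k₃ := h₃ x 1 1 0
  have e2 : (![x * 1, x * 0 + 1 * 1, 1 * 0] : Fin 3 → K) = ![x, 1, 0] := by
    funext i
    fin_cases i <;> simp
  rw [e2] at k₃
  rw [logHeight₁_eq_logHeight x, logHeight₁_eq_logHeight x']
  have a1 := neg_abs_le C₂
  have a2 := le_abs_self C₃
  have a3 := le_abs_self (logHeight ![(1 : K), 0])
  have a4 := le_abs_self C₁
  have a5 := (abs_le.1 k₁).1
  exact ⟨hD, by linarith⟩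

/-- A set on which a Northcott function decreases along a section of a map. -/
lemma descent {α : Type} (S : Set α) (h : α → ℝ) (M : ℝ) (hM : 0 ≤ M) (h0 : ∀ x, 0 ≤ h x)
    (hN : ∀ B : ℝ, {x | h x ≤ B}.Finite) (D : α → α) (g : α → α)
    (hg : ∀ x ∈ S, g x ∈ S ∧ D (g x) = x ∧ 4 * h (g x) ≤ h x + M) : S.Finite := by
  set A : Set α := {x | x ∈ S ∧ h x ≤ M + 1} with hA
  have hAf : A.Finite := (hN (M + 1)).subset fun x hx => hx.2
  have hgA : ∀ x ∈ A, g x ∈ A := fun x hx => by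
    obtain ⟨h1, h2, h3⟩ := hg x hx.1
    refine ⟨h1, ?_⟩
    have := hx.2
    linarith
  have hinj : Set.InjOn g S := fun x hx y hy e => by
    rw [← (hg x hx).2.1, ← (hg y hy).2.1, e]
  have hAS : A ⊆ S := fun x hx => hx.1
  have hsurj : ∀ y ∈ A, ∃ x ∈ A, g x = y := by
    have := (Set.Finite.injOn_iff_bijOn_of_mapsTo hAf (fun x hx => hgA x hx)).1 (hinj.mono hAS)
    exact fun y hy => this.surjOn hy
  have hsurjn : ∀ n : ℕ, ∀ y ∈ A, ∃ x ∈ A, g^[n] x = y := by
    intro n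
    induction n with
    | zero => exact fun y hy => ⟨y, hy, rfl⟩
    | succ n ih =>
      intro y hy
      obtain ⟨z, hz, rfl⟩ := hsurj y hy
      obtain ⟨x, hx, rfl⟩ := ih z hz
      exact ⟨x, hx, Function.iterate_succ_apply' g n x⟩
  have hgS : ∀ n : ℕ, ∀ x ∈ S, g^[n] x ∈ S := by
    intro n
    induction n with
    | zero => exact fun x hx => hx
    | succ n ih =>
      intro x hx
      rw [Function.iterate_succ_apply']
      exact (hg _ (ih x hx)).1
  have hinjn : ∀ n : ℕ, ∀ x ∈ S, ∀ y ∈ S, g^[n] x = g^[n] y → x = y := by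
    intro n
    induction n with
    | zero => exact fun x _ y _ e => e
    | succ n ih =>
      intro x hx y hy e
      rw [Function.iterate_succ_apply', Function.iterate_succ_apply'] at e
      exact ih x hx y hy (hinj (hgS n x hx) (hgS n y hy) e)
  have hdec : ∀ n : ℕ, ∀ x ∈ S, h (g^[n] x) ≤ h x / 4 ^ n + M / 3 := by
    intro n
    induction n with
    | zero =>
      intro x _
      simp
      linarith
    | succ n ih =>
      intro x hx
      rw [Function.iterate_succ_apply']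
      have h1 := (hg _ (hgS n x hx)).2.2
      have h2 := ih x hx
      have e : h x / 4 ^ (n + 1) = h x / 4 ^ n / 4 := by
        rw [pow_succ, div_div]
      rw [e]
      linarith
  refine hAf.subset fun x hx => ?_
  obtain ⟨n, hn⟩ : ∃ n : ℕ, h x / 4 ^ n ≤ 1 := by
    obtain ⟨n, hn⟩ := pow_unbounded_of_one_lt (h x) (by norm_num : (1 : ℝ) < 4)
    exact ⟨n, by rw [div_le_one (by positivity)]; exact hn.le⟩
  have hmem : g^[n] x ∈ A := ⟨hgS n x hx, by
    have := hdec n x hx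
    linarith⟩
  obtain ⟨z, hz, e⟩ := hsurjn n _ hmem
  have := hinjn n z (hAS hz) x hx e
  rwa [this] at hz

end Ht

end Pool.NF.NDBL8

namespace Pool.NF

open Polynomial Height NDBL8

theorem ndbl : NDBLStmt := by
  intro K _ _ a b c hs hd
  obtain ⟨M, hM, hh⟩ := height_double a b c hs
  set S : Set K := {x | ∃ y, y ^ 2 = x ^ 3 + a * x ^ 2 + b * x + c} with hS
  have hd' : ∀ x ∈ S, ∃ x' ∈ S, ∃ y' : K, y' ^ 2 = x' ^ 3 + a * x' ^ 2 + b * x' + c ∧
      4 * y' ^ 2 * x = x' ^ 4 - 2 * b * x' ^ 2 - 8 * c * x' + b ^ 2 - 4 * a * c := by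
    rintro x ⟨y, hy⟩
    obtain ⟨x', y', h1, h2⟩ := hd x y hy
    exact ⟨x', ⟨y', h1⟩, y', h1, h2⟩
  classical
  set g : K → K := fun x => if h : x ∈ S then (hd' x h).choose else x with hg
  set D : K → K := fun x' => (x' ^ 4 - 2 * b * x' ^ 2 - 8 * c * x' + b ^ 2 - 4 * a * c) /
    (4 * (x' ^ 3 + a * x' ^ 2 + b * x' + c)) with hD
  have hgS : ∀ x ∈ S, g x ∈ S ∧ D (g x) = x ∧ 4 * logHeight₁ (g x) ≤ logHeight₁ x + M := by
    intro x hx
    have e : g x = (hd' x hx).choose := by simp only [hg, hx, dif_pos]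
    obtain ⟨h1, y', h2, h3⟩ := (hd' x hx).choose_spec
    rw [← e] at h1 h2 h3
    obtain ⟨h4, h5⟩ := hh _ _ _ h2 h3
    refine ⟨h1, ?_, h5⟩
    simp only [hD]
    rw [← h2, ← h3]
    exact mul_div_cancel_left₀ x h4
  have hSf : S.Finite := descent S logHeight₁ M hM zero_le_logHeight₁
    (fun B => NumberField.finite_setOfPred_logHeight₁_le K B) D g hgS
  refine (hSf.biUnion (t := fun x => (fun y => (x, y)) ''
    {y : K | y ^ 2 = x ^ 3 + a * x ^ 2 + b * x + c}) fun x _ => ?_).subset ?_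
  · refine Set.Finite.image _ ?_
    have hne : (X ^ 2 - C (x ^ 3 + a * x ^ 2 + b * x + c) : K[X]) ≠ 0 :=
      X_pow_sub_C_ne_zero (by norm_num) _
    refine ((X ^ 2 - C (x ^ 3 + a * x ^ 2 + b * x + c) : K[X]).roots.toFinset.finite_toSet).subset
      fun y hy => ?_
    simp only [Finset.mem_coe, Multiset.mem_toFinset, mem_roots hne, IsRoot, eval_sub, eval_pow,
      eval_X, eval_C]
    rw [Set.mem_ofPred_eq] at hy
    rw [hy, sub_self]
  · rintro ⟨x, y⟩ hp
    rw [Set.mem_ofPred_eq] at hp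
    exact Set.mem_biUnion (show x ∈ S from ⟨y, hp⟩) ⟨y, hp, rfl⟩

end Pool.NF
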